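import Pool.Agent.R940.RtP

/-!
# MP_e95b71_ag: polarized endomorphisms and invariant tensors

Let `X` be a smooth projective variety of dimension `d` and `f` an endomorphism of `X` which multiplies
the class of an ample divisor by `q > 0` (`IsPolarized`). For `n ≥ 0` let `t(n)` be the dimension of the
eigenspace and `r(n)` the dimension of the generalised eigenspace of `f^*` on the tensor power of
`2 n` copies of `H(X)`, that is of `(f × ... × f)^*` on the cohomology of `X ^ (2 n)`, for the eigenvalue
`q ^ (n d)`. Let `b = dim H(X)`.

* If `f^*` is not semisimple on `H(X)`, then `√n t(n) < 4 b ^ 2 r(n)` for all `n`.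
* If `f^*` is semisimple on `H(X)`, then `t(n) = r(n)` for all `n`.
* `f^*` is semisimple on `H(X)` if and only if there is an `n` with `√n t(n) ≥ 4 b ^ 2 r(n)`.

The Weil cohomology and the varieties are those of the starting files.
-/

open CategoryTheory AlgebraicGeometry

universe u v

namespace Pool.Agent.Results.MP_e95b71_ag.InvariantTensors

open Module Pool.Agent.H914 Pool.Agent.R940.Rt VarClass Obj WeilCohomology

variable {k : Type u} [Field k] {𝒱 : VarClass k} {ops : CycleOps 𝒱}

/-- **Polarized endomorphisms and invariant tensors.** -/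
theorem result (W : WeilCohomology.{u, v} ops) [IsAlgClosed W.K] (X : 𝒱.Obj) (f : X ⟶ X) (q : ℕ)
    (hq : 0 < q) (hf : IsPolarized W f q) :
    TensorLaw (pullEnd W f) ((q : W.K) ^ X.dim) ∧
      SemisimpleIffMany (pullEnd W f) ((q : W.K) ^ X.dim) :=
  polarized_law hq hf

end Pool.Agent.Results.MP_e95b71_ag.InvariantTensors
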